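import Pool.Agent.Ff5.Main

/-!
The powers of a fixed polynomial, and the statement to be handed in.
-/

set_option autoImplicit false

namespace Pool.Agent.Ff5

open Polynomial Pool.Agent.Ff2 Pool.Agent.Ff3 Pool.Agent.Ff4

variable {K : Type} [Field K] [Fintype K]

/-- The powers of a fixed polynomial. -/
theorem powers {k : ℕ} (hK : Fintype.card K = 2 ^ k) (f : K[X]) (hf : 0 < f.natDegree) :
    ∃ δ : ℝ, 0 < δ ∧ ∀ n : ℕ, 1 ≤ n → ∃ c : K[X], IsCoprime c (f ^ n) ∧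
      ∀ P : K[X], Irreducible P → f ^ n ∣ P - c →
        δ * (n : ℝ) ^ 2 * (Fintype.card K : ℝ) ^ (f ^ n).natDegree ≤
          (Fintype.card K : ℝ) ^ P.natDegree := by
  have hchar : CharP K 2 := red_charP K k hK
  have hq : 2 ≤ Fintype.card K := Fintype.one_lt_card
  have hq' : (2 : ℝ) ≤ Fintype.card K := by exact_mod_cast hq
  obtain ⟨N₀, hN₀⟩ := main5 (K := K) hK (ε := 1 / 2) (by norm_num) (by norm_num)
  have hf0 : f ≠ 0 := by
    rintro rfl
    rw [natDegree_zero] at hf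
    exact lt_irrefl _ hf
  have hlc : f.leadingCoeff ≠ 0 := leadingCoeff_ne_zero.2 hf0
  obtain ⟨f₀, hf₀⟩ : ∃ f₀ : K[X], f₀ = C (f.leadingCoeff⁻¹) * f := ⟨_, rfl⟩
  have hf₀m : f₀.Monic := hf₀ ▸ monic_mul hf0
  have hff : f = C f.leadingCoeff * f₀ := by
    rw [hf₀, ← mul_assoc, ← C_mul, mul_inv_cancel₀ hlc, C_1, one_mul]
  obtain ⟨d, hd⟩ : ∃ d, f.natDegree = d := ⟨_, rfl⟩
  have hf₀d : f₀.natDegree = d := by
    rw [hf₀, natDegree_C_mul (inv_ne_zero hlc), hd]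
  rw [hd] at hf
  obtain ⟨π, hπ, hπf⟩ : ∃ π : K[X], Irreducible π ∧ π ∣ f₀ := by
    refine WfDvdMonoid.exists_irreducible_factor (fun hu => ?_) hf₀m.ne_zero
    have := natDegree_eq_zero_of_isUnit hu
    omega
  obtain ⟨n0, hn0⟩ : ∃ n0, n0 = 4 * N₀ + 100 := ⟨_, rfl⟩
  have hn0' : (0 : ℝ) < n0 := by
    rw [hn0]
    positivity
  have hδ1 : 0 < 1 / (1024 * (Fintype.card K : ℝ) ^ (5 * d)) := by positivity
  have hδ2 : 0 < 1 / ((n0 : ℝ) ^ 2 * (Fintype.card K : ℝ) ^ (n0 * d)) := by positivity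
  refine ⟨min (1 / (1024 * (Fintype.card K : ℝ) ^ (5 * d)))
    (1 / ((n0 : ℝ) ^ 2 * (Fintype.card K : ℝ) ^ (n0 * d))), lt_min hδ1 hδ2, ?_⟩
  intro n hn
  rw [natDegree_pow, hd]
  rcases lt_or_ge n n0 with h | h
  · refine ⟨1, isCoprime_one_left, ?_⟩
    intro P _ _
    have h1 : (1 : ℝ) ≤ (Fintype.card K : ℝ) ^ P.natDegree := one_le_pow₀ (by linarith)
    refine le_trans ?_ h1
    have h2 : (n : ℝ) ^ 2 * (Fintype.card K : ℝ) ^ (n * d) ≤
        (n0 : ℝ) ^ 2 * (Fintype.card K : ℝ) ^ (n0 * d) := by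
      refine mul_le_mul ?_ (pow_le_pow_right₀ (by linarith) (Nat.mul_le_mul_right _ h.le))
        (by positivity) (by positivity)
      exact pow_le_pow_left₀ (by positivity) (by exact_mod_cast h.le) 2
    have h3 : (0 : ℝ) < (n0 : ℝ) ^ 2 * (Fintype.card K : ℝ) ^ (n0 * d) := by positivity
    calc min (1 / (1024 * (Fintype.card K : ℝ) ^ (5 * d)))
          (1 / ((n0 : ℝ) ^ 2 * (Fintype.card K : ℝ) ^ (n0 * d))) * (n : ℝ) ^ 2 *
            (Fintype.card K : ℝ) ^ (n * d)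
        = min (1 / (1024 * (Fintype.card K : ℝ) ^ (5 * d)))
          (1 / ((n0 : ℝ) ^ 2 * (Fintype.card K : ℝ) ^ (n0 * d))) *
            ((n : ℝ) ^ 2 * (Fintype.card K : ℝ) ^ (n * d)) := by ring
      _ ≤ 1 / ((n0 : ℝ) ^ 2 * (Fintype.card K : ℝ) ^ (n0 * d)) *
            ((n0 : ℝ) ^ 2 * (Fintype.card K : ℝ) ^ (n0 * d)) :=
          mul_le_mul (min_le_right _ _) h2 (by positivity) hδ2.le
      _ = 1 := one_div_mul_cancel h3.ne'
  · obtain ⟨D, r, h1, h2, h3⟩ : ∃ D r : ℕ, n = 4 * D + r ∧ 2 ≤ r ∧ r ≤ 5 :=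
      ⟨(n - 2) / 4, (n - 2) % 4 + 2, by omega, by omega, by omega⟩
    have hDN : N₀ ≤ D := by omega
    have hD1 : 1 ≤ D := by omega
    obtain ⟨g, hg⟩ : ∃ g : K[X], g = f₀ ^ D := ⟨_, rfl⟩
    obtain ⟨e, he⟩ : ∃ e : K[X], e = C (f.leadingCoeff ^ n) * f₀ ^ r := ⟨_, rfl⟩
    have hgm : g.Monic := hg ▸ hf₀m.pow D
    have hgd : g.natDegree = D * d := by
      rw [hg, hf₀m.natDegree_pow, hf₀d]
    have hgN : N₀ ≤ g.natDegree := by
      rw [hgd]
      exact hDN.trans (Nat.le_mul_of_pos_right _ hf)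
    have he0 : e ≠ 0 := by
      rw [he]
      exact mul_ne_zero (C_ne_zero.2 (pow_ne_zero _ hlc)) (hf₀m.pow r).ne_zero
    have heg : e * g ^ 4 = f ^ n := by
      conv_rhs => rw [hff]
      rw [he, hg, mul_pow, C_pow, h1]
      ring
    have hsq : ∀ p : K[X], p ∣ f₀ → p ^ 2 ∣ e := by
      intro p hp
      rw [he]
      exact ((pow_dvd_pow p h2).trans (pow_dvd_pow_of_dvd hp r)).mul_left _
    have hrough : ∀ p : K[X], Irreducible p → p ∣ g →
        g.natDegree ≤ Fintype.card K ^ p.natDegree ∨ p ^ 2 ∣ e := by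
      intro p hp hpg
      rw [hg] at hpg
      exact Or.inr (hsq p (hp.prime.dvd_of_dvd_pow hpg))
    have hns : ¬ Squarefree e := by
      intro h4
      have h5 := hsq π hπf
      rw [sq] at h5
      exact hπ.not_isUnit (h4 π h5)
    obtain ⟨C, hC, hC2⟩ := hN₀ g e hgm hgN he0 hrough (Or.inr hns)
    have hCne : C.Nonempty := by
      rw [← Finset.card_pos]
      have h4 : (0 : ℝ) < C.card := lt_of_lt_of_le (by positivity) hC
      exact_mod_cast h4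
    obtain ⟨c, hc⟩ := hCne
    obtain ⟨_, h5, h6⟩ := hC2 c hc
    rw [heg] at h5 h6
    refine ⟨c, h5, ?_⟩
    intro P hP hdv
    -- the largest power
    have hex : ∃ j : ℕ, (1 - (1 / 2 : ℝ)) * ((Fintype.card K : ℝ) - 1) * g.natDegree <
        (Fintype.card K : ℝ) ^ j := pow_unbounded_of_one_lt _ (by linarith)
    classical
    obtain ⟨J, hJ⟩ : ∃ J, J = Nat.find hex := ⟨_, rfl⟩
    have hJ1 : (1 - (1 / 2 : ℝ)) * ((Fintype.card K : ℝ) - 1) * g.natDegree <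
        (Fintype.card K : ℝ) ^ J := hJ ▸ Nat.find_spec hex
    have hD' : (20 : ℝ) ≤ D := by
      have : 20 ≤ D := by omega
      exact_mod_cast this
    have hgD : (D : ℝ) ≤ g.natDegree := by
      have : D ≤ g.natDegree := by
        rw [hgd]
        exact Nat.le_mul_of_pos_right _ hf
      exact_mod_cast this
    have hJ0 : J ≠ 0 := by
      intro h0
      rw [h0, pow_zero] at hJ1
      nlinarith
    have hJ2 : (Fintype.card K : ℝ) ^ (J - 1) ≤
        (1 - (1 / 2 : ℝ)) * ((Fintype.card K : ℝ) - 1) * g.natDegree :=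
      not_lt.1 (Nat.find_min hex (by omega))
    obtain ⟨j, rfl⟩ : ∃ j, J = j + 1 := ⟨J - 1, by omega⟩
    rw [Nat.add_sub_cancel] at hJ2
    have h7 := h6 P hP hdv j hJ2
    rw [hgm.natDegree_pow, hgd] at h7
    have h8 : (n : ℝ) ≤ 32 * (Fintype.card K : ℝ) ^ j := by
      have e1 : (n : ℝ) ≤ 8 * D := by
        have : n ≤ 8 * D := by omega
        exact_mod_cast this
      have e2 : (Fintype.card K : ℝ) * (D / 4) ≤
          Fintype.card K * (Fintype.card K : ℝ) ^ j := by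
        have e3 : (Fintype.card K : ℝ) ^ (j + 1) = Fintype.card K * (Fintype.card K : ℝ) ^ j := by
          ring
        rw [e3] at hJ1
        have e5 : (1 - (1 / 2 : ℝ)) * ((Fintype.card K : ℝ) - 1) * D ≤
            (1 - (1 / 2 : ℝ)) * ((Fintype.card K : ℝ) - 1) * g.natDegree :=
          mul_le_mul_of_nonneg_left hgD (by nlinarith)
        nlinarith
      have e4 := le_of_mul_le_mul_left e2 (by linarith)
      linarith
    have hqr : (Fintype.card K : ℝ) ^ (n * d) ≤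
        (Fintype.card K : ℝ) ^ (5 * d) * (Fintype.card K : ℝ) ^ (4 * (D * d)) := by
      rw [← pow_add]
      refine pow_le_pow_right₀ (by linarith) ?_
      calc n * d ≤ (5 + 4 * D) * d := Nat.mul_le_mul_right _ (by omega)
        _ = 5 * d + 4 * (D * d) := by ring
    generalize Fintype.card K = q at *
    have hq5 : (0 : ℝ) < (q : ℝ) ^ (5 * d) := by positivity
    have h9 : (n : ℝ) ^ 2 ≤ 1024 * ((q : ℝ) ^ j) ^ 2 := by
      calc (n : ℝ) ^ 2 ≤ (32 * (q : ℝ) ^ j) ^ 2 := pow_le_pow_left₀ (by positivity) h8 2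
        _ = 1024 * ((q : ℝ) ^ j) ^ 2 := by ring
    calc min (1 / (1024 * (q : ℝ) ^ (5 * d))) (1 / ((n0 : ℝ) ^ 2 * (q : ℝ) ^ (n0 * d))) *
          (n : ℝ) ^ 2 * (q : ℝ) ^ (n * d)
        ≤ 1 / (1024 * (q : ℝ) ^ (5 * d)) * (1024 * ((q : ℝ) ^ j) ^ 2) *
            ((q : ℝ) ^ (5 * d) * (q : ℝ) ^ (4 * (D * d))) := by
          refine mul_le_mul ?_ hqr (by positivity) (by positivity)
          exact mul_le_mul (min_le_left _ _) h9 (by positivity) hδ1.le
      _ = (q : ℝ) ^ (4 * (D * d)) * ((q : ℝ) ^ j) ^ 2 := by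
          field_simp
      _ ≤ (q : ℝ) ^ P.natDegree := h7

theorem fin5 (F : Type) [Field F] [Fintype F] (k : ℕ) (hF : Fintype.card F = 2 ^ k) :
    (∀ f : F[X], 0 < f.natDegree → ∃ δ : ℝ, 0 < δ ∧ ∀ n : ℕ, 1 ≤ n → ∃ c : F[X],
      IsCoprime c (f ^ n) ∧ ∀ P : F[X], Irreducible P → f ^ n ∣ P - c →
        δ * (n : ℝ) ^ 2 * (Fintype.card F : ℝ) ^ (f ^ n).natDegree ≤
          (Fintype.card F : ℝ) ^ P.natDegree) ∧
    ∀ ε : ℝ, 0 < ε → ε < 1 → ∃ N₀ : ℕ, ∀ g h : F[X], g.Monic → N₀ ≤ g.natDegree → h ≠ 0 →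
      (∀ p : F[X], Irreducible p → p ∣ g →
        g.natDegree ≤ Fintype.card F ^ p.natDegree ∨ p ^ 2 ∣ h) →
      (Odd (k * g.natDegree) ∨ ¬ Squarefree h) →
      ∃ C : Finset F[X], ((Fintype.card F : ℝ) ^ (g ^ 4).natDegree) ^ (ε / 5) ≤ C.card ∧
        ∀ c ∈ C, c.natDegree < (h * g ^ 4).natDegree ∧ IsCoprime c (h * g ^ 4) ∧
          ∀ P : F[X], Irreducible P → h * g ^ 4 ∣ P - c → ∀ j : ℕ,
            (Fintype.card F : ℝ) ^ j ≤
              (1 - ε) * ((Fintype.card F : ℝ) - 1) * g.natDegree →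
            (Fintype.card F : ℝ) ^ (g ^ 4).natDegree * ((Fintype.card F : ℝ) ^ j) ^ 2 ≤
              (Fintype.card F : ℝ) ^ P.natDegree :=
  ⟨fun f hf => powers hF f hf, fun _ hε hε1 => main5 hF hε hε1⟩

end Pool.Agent.Ff5
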