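import Pool.Agent.Ff4.Siev

/-!
Auxiliary lemmas for the small primes of the modulus.
-/

set_option autoImplicit false

namespace Pool.Agent.Ff5

open Polynomial Pool.Agent.Ff2 Pool.Agent.Ff3 Pool.Agent.Ff4 UniqueFactorizationMonoid

variable {K : Type} [Field K]

/-- The part of a polynomial prime to `r`. -/
theorem strip (r : K[X]) (n : ℕ) : ∀ A : K[X], A ≠ 0 → A.natDegree ≤ n →
    ∃ W : K[X], W ≠ 0 ∧ W ∣ A ∧ IsCoprime W r ∧ ∀ a : K[X], a ∣ A → IsCoprime a r → a ∣ W := by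
  induction n with
  | zero =>
    intro A hA hn
    have hu : IsUnit A := by
      rw [isUnit_iff_degree_eq_zero, degree_eq_natDegree hA, Nat.le_zero.1 hn]
      rfl
    obtain ⟨b, hb⟩ := hu.exists_left_inv
    exact ⟨A, hA, dvd_rfl, ⟨b, 0, by rw [hb]; ring⟩, fun a ha _ => ha⟩
  | succ n ih =>
    intro A hA hn
    by_cases hc : IsCoprime A r
    · exact ⟨A, hA, dvd_rfl, hc, fun a ha _ => ha⟩
    · obtain ⟨t, ht, htA, htr⟩ : ∃ t : K[X], Irreducible t ∧ t ∣ A ∧ t ∣ r := by
        by_contra hcon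
        push Not at hcon
        exact hc (isCoprime_of_irreducible_dvd (fun h0 => hA h0.1)
          fun t ht h1 h2 => hcon t ht h1 h2)
      obtain ⟨A₁, rfl⟩ := htA
      have hA₁ : A₁ ≠ 0 := right_ne_zero_of_mul hA
      obtain ⟨W, h1, h2, h3, h4⟩ := ih A₁ hA₁ (by
        rw [natDegree_mul ht.ne_zero hA₁] at hn
        have := ht.natDegree_pos
        omega)
      refine ⟨W, h1, h2.mul_left _, h3, fun a ha har => h4 a ?_ har⟩
      exact (har.of_isCoprime_of_dvd_right htr).dvd_of_dvd_mul_left ha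

/-- A residue prime to a finite set of primes, with its derivative. -/
theorem exists_beta [CharP K 2] (A₀ M : K[X]) (S : Finset K[X])
    (hS : ∀ t ∈ S, Irreducible t ∧ ¬ t ∣ M) (hp : ∀ t ∈ S, ∀ t' ∈ S, t ≠ t' → ¬ t ∣ t') :
    ∃ y : K[X], ∀ t ∈ S, ¬ t ∣ A₀ + M ^ 2 * y ∧ ¬ t ∣ derivative (A₀ + M ^ 2 * y) := by
  classical
  have h20 : ((2 : ℕ) : K[X]) = 0 := CharP.cast_eq_zero K[X] 2
  induction S using Finset.induction_on with
  | empty => exact ⟨0, fun t ht => absurd ht (Finset.notMem_empty t)⟩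
  | insert t S htS ih =>
    obtain ⟨y₀, hy₀⟩ := ih (fun s hs => hS s (Finset.mem_insert_of_mem hs))
      (fun s hs s' hs' => hp s (Finset.mem_insert_of_mem hs) s' (Finset.mem_insert_of_mem hs'))
    obtain ⟨ht, htM⟩ := hS t (Finset.mem_insert_self _ _)
    obtain ⟨R, hR⟩ : ∃ R : K[X], R = ∏ s ∈ S, s := ⟨_, rfl⟩
    have hR1 : ∀ s ∈ S, s ∣ R := fun s hs => hR ▸ Finset.dvd_prod_of_mem (fun s => s) hs
    have hR2 : ¬ t ∣ R := by
      intro h
      rw [hR] at h
      obtain ⟨s, hs, h1⟩ := (Prime.dvd_finsetProd_iff ht.prime _).1 h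
      exact hp t (Finset.mem_insert_self _ _) s (Finset.mem_insert_of_mem hs)
        (fun h2 => htS (h2 ▸ hs)) h1
    clear hR
    have hte : ¬ t ∣ (M * R) ^ 2 := by
      intro h
      rcases ht.prime.dvd_or_dvd (ht.prime.dvd_of_dvd_pow h) with h1 | h1
      · exact htM h1
      · exact hR2 h1
    have hform : ∀ z : K[X], A₀ + M ^ 2 * (y₀ + R ^ 2 * z) = A₀ + M ^ 2 * y₀ + (M * R) ^ 2 * z := by
      intro z
      ring
    have hder : ∀ z : K[X], derivative (A₀ + M ^ 2 * (y₀ + R ^ 2 * z)) =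
        derivative (A₀ + M ^ 2 * y₀) + (M * R) ^ 2 * derivative z := by
      intro z
      rw [hform, derivative_add (f := A₀ + M ^ 2 * y₀), derivative_mul, derivative_sq]
      have : (C 2 : K[X]) = 0 := by
        have h3 : (2 : K) = 0 := CharTwo.two_eq_zero
        rw [h3, C_0]
      rw [this]
      ring
    have hold : ∀ z : K[X], ∀ s ∈ S, ¬ s ∣ A₀ + M ^ 2 * (y₀ + R ^ 2 * z) ∧
        ¬ s ∣ derivative (A₀ + M ^ 2 * (y₀ + R ^ 2 * z)) := by
      intro z s hs
      have h1 : s ∣ (M * R) ^ 2 := dvd_pow ((hR1 s hs).mul_left _) two_ne_zero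
      rw [hform, ← hform, hder, hform]
      refine ⟨fun h => (hy₀ s hs).1 ?_, fun h => (hy₀ s hs).2 ?_⟩
      · exact (dvd_add_left (h1.mul_right _)).1 h
      · exact (dvd_add_left (h1.mul_right _)).1 h
    obtain ⟨z, hz1, hz2⟩ : ∃ z : K[X], ¬ t ∣ A₀ + M ^ 2 * y₀ + (M * R) ^ 2 * z ∧
        ¬ t ∣ derivative (A₀ + M ^ 2 * y₀) + (M * R) ^ 2 * derivative z := by
      by_cases h1 : t ∣ derivative (A₀ + M ^ 2 * y₀)
      · have h2 : ∀ c : K, ¬ t ∣ derivative (A₀ + M ^ 2 * y₀) +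
            (M * R) ^ 2 * derivative (X + C c) := by
          intro c h
          have hXc : derivative (X + C c) = 1 := by
            rw [derivative_add, derivative_X, derivative_C, add_zero]
          rw [hXc, mul_one] at h
          exact hte ((dvd_add_right h1).1 h)
        by_cases h3 : t ∣ A₀ + M ^ 2 * y₀ + (M * R) ^ 2 * (X + C 0)
        · refine ⟨X + C 1, fun h => hte ?_, h2 1⟩
          have h4 := dvd_sub h h3
          have h5 : A₀ + M ^ 2 * y₀ + (M * R) ^ 2 * (X + C 1) -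
              (A₀ + M ^ 2 * y₀ + (M * R) ^ 2 * (X + C 0)) = (M * R) ^ 2 := by
            rw [C_1, C_0]
            ring
          rwa [h5] at h4
        · exact ⟨X + C 0, h3, h2 0⟩
      · by_cases h3 : t ∣ A₀ + M ^ 2 * y₀
        · refine ⟨1, fun h => hte ?_, ?_⟩
          · rw [mul_one] at h
            exact (dvd_add_right h3).1 h
          · rw [derivative_one, mul_zero, add_zero]
            exact h1
        · refine ⟨0, ?_, ?_⟩
          · rw [mul_zero, add_zero]
            exact h3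
          · rw [derivative_zero, mul_zero, add_zero]
            exact h1
    refine ⟨y₀ + R ^ 2 * z, fun s hs => ?_⟩
    rcases Finset.mem_insert.1 hs with rfl | hs
    · rw [hder, hform]
      exact ⟨hz1, hz2⟩
    · exact hold z s hs

/-- Monic irreducible polynomials dividing each other are equal. -/
theorem eq_of_dvd_norm [DecidableEq K] {t t' : K[X]} (ht : Irreducible t) (ht' : Irreducible t')
    (h : normalize t = t) (h' : normalize t' = t') (hd : t ∣ t') : t = t' := by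
  have h1 : Associated t t' := ht.associated_of_dvd ht' hd
  rw [← h, ← h']
  exact normalize_eq_normalize h1.dvd h1.symm.dvd

/-- The product of a finite set of primes dividing a polynomial divides it. -/
theorem prod_pow_dvd (S : Finset K[X]) (hS : ∀ t ∈ S, Irreducible t)
    (hp : ∀ t ∈ S, ∀ t' ∈ S, t ≠ t' → ¬ t ∣ t') (n : ℕ) (z : K[X]) (hz : ∀ t ∈ S, t ^ n ∣ z) :
    (∏ t ∈ S, t) ^ n ∣ z := by
  classical
  rw [← Finset.prod_pow]
  refine Finset.prod_dvd_of_coprime (s := fun t : K[X] => t ^ n) ?_ hz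
  intro t ht t' ht' hne
  exact IsCoprime.pow (((hS t ht).coprime_iff_not_dvd).2 (hp t ht t' ht' hne))

/-- The large primes dividing a polynomial. -/
theorem large_primes (g : K[X]) (hg : g ≠ 0) (ℓ : ℕ) :
    ∃ T : Finset K[X], ℓ * T.card ≤ g.natDegree ∧
      (∀ t ∈ T, Irreducible t ∧ t ∣ g ∧ ℓ ≤ t.natDegree) ∧
      ∀ t : K[X], Irreducible t → t ∣ g → ℓ ≤ t.natDegree → ∃ t' ∈ T, Associated t t' := by
  classical
  obtain ⟨T, hT⟩ : ∃ T : Finset K[X],
      T = (normalizedFactors g).toFinset.filter (fun t => ℓ ≤ t.natDegree) := ⟨_, rfl⟩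
  have hmem : ∀ t : K[X], t ∈ T ↔ t ∈ normalizedFactors g ∧ ℓ ≤ t.natDegree := by
    intro t
    rw [hT, Finset.mem_filter, Multiset.mem_toFinset]
  have hirr : ∀ t ∈ T, Irreducible t :=
    fun t ht => irreducible_of_normalized_factor t ((hmem t).1 ht).1
  have hpw : ∀ t ∈ T, ∀ t' ∈ T, t ≠ t' → ¬ t ∣ t' := fun t ht t' ht' hne hd =>
    hne (eq_of_dvd_norm (hirr t ht) (hirr t' ht')
      (normalize_normalized_factor t ((hmem t).1 ht).1)
      (normalize_normalized_factor t' ((hmem t').1 ht').1) hd)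
  refine ⟨T, ?_, fun t ht => ⟨hirr t ht, dvd_of_mem_normalizedFactors ((hmem t).1 ht).1,
    ((hmem t).1 ht).2⟩, fun t ht htg htd => ?_⟩
  · have h1 : (∏ t ∈ T, t) ^ 1 ∣ g := prod_pow_dvd T hirr hpw 1 g fun t ht => by
      rw [pow_one]
      exact dvd_of_mem_normalizedFactors ((hmem t).1 ht).1
    rw [pow_one] at h1
    have h2 := natDegree_le_of_dvd h1 hg
    rw [natDegree_prod _ _ (fun t ht => (hirr t ht).ne_zero)] at h2
    have h3 : T.card • ℓ ≤ ∑ t ∈ T, t.natDegree :=
      Finset.card_nsmul_le_sum T _ ℓ fun t ht => ((hmem t).1 ht).2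
    rw [smul_eq_mul, mul_comm] at h3
    exact h3.trans h2
  · obtain ⟨q, hq, ha⟩ := exists_mem_normalizedFactors_of_dvd hg ht htg
    have h4 : t.natDegree = q.natDegree :=
      natDegree_eq_of_degree_eq (degree_eq_degree_of_associated ha)
    exact ⟨q, (hmem q).2 ⟨hq, h4 ▸ htd⟩, ha⟩

/-- The small primes dividing a polynomial, except the associates of `p`. -/
theorem small_primes (g p : K[X]) (hg : g ≠ 0) (L : ℕ) :
    ∃ S : Finset K[X], (∀ t ∈ S, Irreducible t ∧ t ∣ g ∧ t.natDegree ≤ L ∧ ¬ Associated t p) ∧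
      (∀ t ∈ S, ∀ t' ∈ S, t ≠ t' → ¬ t ∣ t') ∧
      ∀ t : K[X], Irreducible t → t ∣ g → L + 1 ≤ t.natDegree ∨ Associated t p ∨
        ∃ t' ∈ S, Associated t t' := by
  classical
  obtain ⟨T, hT⟩ : ∃ T : Finset K[X], T = (normalizedFactors g).toFinset.filter
      (fun t => t.natDegree ≤ L ∧ ¬ Associated t p) := ⟨_, rfl⟩
  have hmem : ∀ t : K[X], t ∈ T ↔ t ∈ normalizedFactors g ∧ t.natDegree ≤ L ∧
      ¬ Associated t p := by
    intro t
    rw [hT, Finset.mem_filter, Multiset.mem_toFinset]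
  have hirr : ∀ t ∈ T, Irreducible t :=
    fun t ht => irreducible_of_normalized_factor t ((hmem t).1 ht).1
  refine ⟨T, fun t ht => ⟨hirr t ht, dvd_of_mem_normalizedFactors ((hmem t).1 ht).1,
    ((hmem t).1 ht).2⟩, fun t ht t' ht' hne hd => hne (eq_of_dvd_norm (hirr t ht) (hirr t' ht')
      (normalize_normalized_factor t ((hmem t).1 ht).1)
      (normalize_normalized_factor t' ((hmem t').1 ht').1) hd), fun t ht htg => ?_⟩
  obtain ⟨q, hq, ha⟩ := exists_mem_normalizedFactors_of_dvd hg ht htg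
  have h4 : t.natDegree = q.natDegree :=
    natDegree_eq_of_degree_eq (degree_eq_degree_of_associated ha)
  by_cases h5 : L + 1 ≤ t.natDegree
  · exact Or.inl h5
  · by_cases h6 : Associated t p
    · exact Or.inr (Or.inl h6)
    · exact Or.inr (Or.inr ⟨q, (hmem q).2 ⟨hq, by omega, fun h7 => h6 (ha.trans h7)⟩, ha⟩)

end Pool.Agent.Ff5
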