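import Pool.Agent.Ff5.Red
import Pool.Agent.Ff5.Strip
import Pool.Agent.Ff4.Key

/-!
Classes without small irreducible polynomials, the small primes of the modulus being treated
separately.
-/

set_option autoImplicit false

namespace Pool.Agent.Ff5

open Polynomial Pool.Agent.Ff2 Pool.Agent.Ff3 Pool.Agent.Ff4 UniqueFactorizationMonoid

variable {K : Type} [Field K] [Fintype K]

omit [Fintype K] in
/-- The derivative of a square times a polynomial. -/
theorem deriv_sq [CharP K 2] (b M z : K[X]) :
    derivative (b + M ^ 2 * z) = derivative b + M ^ 2 * derivative z := by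
  have : (C 2 : K[X]) = 0 := by
    have h3 : (2 : K) = 0 := CharTwo.two_eq_zero
    rw [h3, C_0]
  rw [derivative_add, derivative_mul, derivative_sq, this]
  ring

/-- First kind of classes. -/
theorem key_odd {k : ℕ} (hK : Fintype.card K = 2 ^ k) {L : ℕ} {g w b r : K[X]} (hg : g.Monic)
    (hw0 : w ≠ 0) (hcop : IsCoprime g w)
    (hwL : ∀ a : K[X], a ≠ 0 → a.natDegree ≤ L → IsCoprime a r → a ∣ w)
    (hdeg : w.natDegree + L + 1 ≤ g.natDegree) (ho : Odd (k * g.natDegree))
    (hb1 : IsCoprime r b) (hb2 : IsCoprime r (derivative b)) {P : K[X]}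
    (hP : Irreducible P) (hdv : r ^ 2 * g ^ 4 ∣ P - (w ^ 4 + b * g ^ 4)) :
    2 * L + 2 + 4 * g.natDegree ≤ P.natDegree := by
  have hchar : CharP K 2 := red_charP K k hK
  obtain ⟨x, hx⟩ := hdv
  obtain ⟨f, hf⟩ : ∃ f, f = b + r ^ 2 * x := ⟨_, rfl⟩
  have hPe : P = w ^ 4 + f * g ^ 4 := by
    rw [hf]
    linear_combination hx
  have h2 : 2 * L + 2 ≤ f.natDegree := by
    by_contra h3
    have c1 : IsCoprime r f := by
      have : f = b + r * (r * x) := by
        rw [hf]
        ring
      rw [this]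
      exact hb1.add_mul_left_right _
    have c2 : IsCoprime r (derivative f) := by
      have : derivative f = derivative b + r * (r * derivative x) := by
        rw [hf, deriv_sq]
        ring
      rw [this]
      exact hb2.add_mul_left_right _
    have h1 := red5 (p := 1) (fs := f) (r := r) hK hg hw0 hcop
      (fun a h1 h2 _ h3 => hwL a h1 h2 h3) (by rw [one_mul]; exact c1) (by rw [one_mul]; exact c2)
      hdeg (Or.inl ⟨rfl, ho⟩) isCoprime_one_left (by rw [one_mul]; omega)
    rw [one_mul] at h1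
    exact h1 (hPe ▸ hP)
  have hf0 : f ≠ 0 := by
    rintro h0
    rw [h0, natDegree_zero] at h2
    omega
  rw [hPe, deg_F hg hf0 (by omega)]
  omega

/-- Second kind of classes. -/
theorem key_even {k : ℕ} (hK : Fintype.card K = 2 ^ k) {L : ℕ} {g w p p₁ y r : K[X]}
    (hg : g.Monic) (hw0 : w ≠ 0) (hcop : IsCoprime g w)
    (hwL : ∀ a : K[X], a ≠ 0 → a.natDegree ≤ L → IsCoprime a p → IsCoprime a r → a ∣ w)
    (hdeg : w.natDegree + L + 1 ≤ g.natDegree) (he : Even (k * g.natDegree))
    (hp : Irreducible p) (hp₁ : Irreducible p₁) (hp₁d : p₁.natDegree ≤ g.natDegree)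
    (hp₁w : p₁ ∣ w ^ 4 + p * g ^ 4) (hb1 : IsCoprime r (p + p ^ 2 * y))
    (hb2 : IsCoprime r (derivative (p + p ^ 2 * y))) {P : K[X]} (hP : Irreducible P)
    (hdv : (p * r) ^ 2 * g ^ 4 ∣ P - (w ^ 4 + (p + p ^ 2 * y) * g ^ 4)) :
    2 * L + 2 + 4 * g.natDegree ≤ P.natDegree := by
  have hchar : CharP K 2 := red_charP K k hK
  obtain ⟨x, hx⟩ := hdv
  obtain ⟨z, hz⟩ : ∃ z, z = y + r ^ 2 * x := ⟨_, rfl⟩
  have hPe : P = w ^ 4 + p * (1 + p * z) * g ^ 4 := by
    rw [hz]
    linear_combination hx
  have hpf : IsCoprime p (1 + p * z) := ⟨-z, 1, by ring⟩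
  have hfs0 : (1 + p * z) ≠ 0 := by
    intro h
    rw [h] at hpf
    exact hp.not_isUnit (isCoprime_zero_right.1 hpf)
  have hB0 : p * (1 + p * z) ≠ 0 := mul_ne_zero hp.ne_zero hfs0
  have hPd : P.natDegree = (p * (1 + p * z)).natDegree + 4 * g.natDegree := by
    rw [hPe, deg_F hg hB0 (by omega)]
  have hu : ¬ IsUnit (1 + p * z) := by
    intro hu
    have h0 := natDegree_eq_zero_of_isUnit hu
    have hx0 : z = 0 := by
      by_contra hx0
      have h1 : (p * z).natDegree = p.natDegree + z.natDegree := natDegree_mul hp.ne_zero hx0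
      have h2 := hp.natDegree_pos
      have h3 : (1 + p * z).natDegree = (p * z).natDegree := by
        rw [natDegree_add_eq_right_of_natDegree_lt]
        rw [natDegree_one]
        omega
      omega
    rw [hx0, mul_zero, add_zero, mul_one] at hPe hPd
    have h1 : p₁ ∣ P := hPe ▸ hp₁w
    have h2 : Associated p₁ P := hp₁.associated_of_dvd hP h1
    have h3 : p₁.natDegree = P.natDegree :=
      natDegree_eq_of_degree_eq (degree_eq_degree_of_associated h2)
    have h4 := hp.natDegree_pos
    omega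
  have h2 : 2 * L + 2 ≤ (p * (1 + p * z)).natDegree := by
    by_contra h3
    have hform : p * (1 + p * z) = p + p ^ 2 * y + (p * r) ^ 2 * x := by
      rw [hz]
      ring
    have c1 : IsCoprime r (p * (1 + p * z)) := by
      have : p * (1 + p * z) = p + p ^ 2 * y + r * (r * p ^ 2 * x) := by
        rw [hform]
        ring
      rw [this]
      exact hb1.add_mul_left_right _
    have c2 : IsCoprime r (derivative (p * (1 + p * z))) := by
      have : derivative (p * (1 + p * z)) =
          derivative (p + p ^ 2 * y) + r * (r * p ^ 2 * derivative x) := by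
        rw [hform, deriv_sq (p + p ^ 2 * y)]
        ring
      rw [this]
      exact hb2.add_mul_left_right _
    have h1 := red5 (p := p) (fs := 1 + p * z) (r := r) hK hg hw0 hcop hwL c1 c2 hdeg
      (Or.inr ⟨hp, he, hu⟩) hpf (by omega)
    exact h1 (hPe ▸ hP)
  omega

/-- The irreducible divisors of `wL` are small. -/
theorem deg_of_dvd_wL (L : ℕ) (t : K[X]) (ht : Irreducible t) (h : t ∣ wL K L) :
    t.natDegree ≤ L := by
  unfold wL at h
  obtain ⟨i, hi, h3⟩ := (Prime.dvd_finsetProd_iff ht.prime _).1 h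
  have h4 : t.natDegree ∣ i + 1 := by
    rw [ht.natDegree_dvd_iff_dvd_X_pow_card_pow_sub_X, Nat.card_eq_fintype_card]
    exact h3
  have h5 := Nat.le_of_dvd (Nat.succ_pos i) h4
  have h7 := Finset.mem_range.1 hi
  omega

end Pool.Agent.Ff5
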