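import Pool.Agent.Ff4.Red

/-!
All members of the progression of small degree are reducible, the small primes of the modulus
being treated separately.
-/

set_option autoImplicit false

namespace Pool.Agent.Ff5

open Polynomial Pool.Agent.Ff2 Pool.Agent.Ff4

theorem red5 {K : Type} [Field K] [Fintype K] {k : ℕ} (hK : Fintype.card K = 2 ^ k)
    {L : ℕ} {g w p fs r : K[X]} (hg : g.Monic) (hw0 : w ≠ 0) (hcop : IsCoprime g w)
    (hwL : ∀ a : K[X], a ≠ 0 → a.natDegree ≤ L → IsCoprime a p → IsCoprime a r → a ∣ w)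
    (hr1 : IsCoprime r (p * fs)) (hr2 : IsCoprime r (derivative (p * fs)))
    (hdeg : w.natDegree + L + 1 ≤ g.natDegree)
    (hp : (p = 1 ∧ Odd (k * g.natDegree)) ∨
      (Irreducible p ∧ Even (k * g.natDegree) ∧ ¬ IsUnit fs))
    (hpf : IsCoprime p fs) (hB : (p * fs).natDegree ≤ 2 * L + 1) :
    ¬ Irreducible (w ^ 4 + p * fs * g ^ 4) := by
  intro hirr
  have hchar : CharP K 2 := red_charP K k hK
  have h20 : ((2 : ℕ) : K[X]) = 0 := CharP.cast_eq_zero K[X] 2
  have hp0 : p ≠ 0 := by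
    rcases hp with ⟨h, _⟩ | ⟨h, _⟩
    · rw [h]; exact one_ne_zero
    · exact h.ne_zero
  by_cases hfs0 : fs = 0
  · rw [hfs0, mul_zero, zero_mul, add_zero] at hirr
    exact not_irreducible_pow (by norm_num) hirr
  obtain ⟨f, hf⟩ : ∃ f, f = p * fs := ⟨_, rfl⟩
  rw [← hf] at hirr hB hr1 hr2
  have hf0 : f ≠ 0 := hf ▸ mul_ne_zero hp0 hfs0
  by_cases hfd : derivative f = 0
  · obtain ⟨f0, hf0'⟩ := red_square hfd
    have hsq : w ^ 4 + f * g ^ 4 = (w ^ 2 + f0 * g ^ 2) ^ 2 := by
      have : (w ^ 2 + f0 * g ^ 2) ^ 2 = w ^ 4 + f0 ^ 2 * g ^ 4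
          + ((2 : ℕ) : K[X]) * (w ^ 2 * (f0 * g ^ 2)) := by
        push_cast
        ring
      rw [this, h20, hf0']
      ring
    rw [hsq] at hirr
    exact not_irreducible_pow (by norm_num) hirr
  -- the degree of the polynomial
  have hfg : (f * g ^ 4).natDegree = f.natDegree + 4 * g.natDegree := by
    rw [natDegree_mul hf0 (pow_ne_zero _ hg.ne_zero), natDegree_pow]
  have hFdeg : (w ^ 4 + f * g ^ 4).natDegree = f.natDegree + 4 * g.natDegree := by
    rw [natDegree_add_eq_right_of_natDegree_lt, hfg]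
    rw [hfg, natDegree_pow]
    omega
  have hfpos : 1 ≤ f.natDegree := by
    by_contra h
    have h0 : f.natDegree = 0 := by omega
    obtain ⟨c, hc⟩ := natDegree_eq_zero.1 h0
    apply hfd
    rw [← hc, derivative_C]
  -- factors of small degree
  have key : ∀ a b : K[X], fs = a * b → ¬ IsUnit a → a.natDegree ≤ L → False := by
    intro a b hab ha haL
    have ha0 : a ≠ 0 := by
      rintro rfl
      exact hfs0 (by rw [hab, zero_mul])
    have hac : IsCoprime a p := by
      rw [hab] at hpf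
      exact hpf.of_mul_right_left.symm
    have har : IsCoprime a r := by
      rw [hf, hab] at hr1
      exact (hr1.of_mul_right_right.of_mul_right_left).symm
    have h1 : a ∣ w := hwL a ha0 haL hac har
    have h2 : a ∣ w ^ 4 + f * g ^ 4 := by
      refine dvd_add (dvd_pow h1 (by norm_num)) ?_
      rw [hf, hab]
      exact ⟨p * b * g ^ 4, by ring⟩
    obtain ⟨c, hc⟩ := h2
    rcases hirr.isUnit_or_isUnit hc with h3 | h3
    · exact ha h3
    · have h4 := hFdeg
      have hc0 : c ≠ 0 := h3.ne_zero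
      rw [hc, natDegree_mul ha0 hc0, natDegree_eq_zero_of_isUnit h3] at h4
      omega
  have hdf : p.natDegree + fs.natDegree = f.natDegree := by
    rw [hf, natDegree_mul hp0 hfs0]
  have hfi : ¬ IsUnit fs → Irreducible fs := by
    intro hfu
    refine ⟨hfu, fun a b hab => ?_⟩
    by_contra hc
    rw [not_or] at hc
    have hsum : a.natDegree + b.natDegree = fs.natDegree := by
      have ha0 : a ≠ 0 := by
        rintro rfl
        exact hfs0 (by rw [hab, zero_mul])
      have hb0 : b ≠ 0 := by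
        rintro rfl
        exact hfs0 (by rw [hab, mul_zero])
      rw [hab, natDegree_mul ha0 hb0]
    rcases le_or_gt a.natDegree L with h | h
    · exact key a b hab hc.1 h
    · exact key b a (by rw [hab, mul_comm]) hc.2 (by omega)
  -- the monic multiple
  have hlc : f.leadingCoeff ≠ 0 := leadingCoeff_ne_zero.2 hf0
  obtain ⟨ν, hν⟩ := red_root (f.leadingCoeff⁻¹)
  have hν4 : ν ^ 4 ≠ 0 := by
    rw [hν]
    exact inv_ne_zero hlc
  have hν0 : ν ≠ 0 := fun h => hν4 (by rw [h]; norm_num)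
  have hCν : (C (ν ^ 4) : K[X]) ≠ 0 := C_ne_zero.2 hν4
  have hCu : IsUnit (C (ν ^ 4) : K[X]) := isUnit_C.2 (isUnit_iff_ne_zero.2 hν4)
  obtain ⟨ρ, hρ⟩ : ∃ ρ : K[X], ρ = C (ν ^ 4) * f := ⟨_, rfl⟩
  have hρm : ρ.Monic := by
    unfold Monic
    rw [hρ, leadingCoeff_mul, leadingCoeff_C, hν, inv_mul_cancel₀ hlc]
  have hρd : ρ.natDegree = f.natDegree := hρ ▸ natDegree_C_mul hν4
  have hρder : derivative ρ ≠ 0 := by
    rw [hρ, derivative_C_mul]
    exact mul_ne_zero hCν hfd
  obtain ⟨f₁, hf₁⟩ := red_square (red_second ρ)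
  have hf₁0 : f₁ ≠ 0 := by
    intro h
    apply hρder
    rw [hf₁, h]
    norm_num
  have hdf₁ : 2 * f₁.natDegree ≤ f.natDegree - 1 := by
    have h1 := natDegree_derivative_le ρ
    rw [hf₁, natDegree_pow, hρd] at h1
    exact h1
  have hf₁p : IsCoprime f₁ p := by
    rcases hp with ⟨h, _⟩ | ⟨h, _⟩
    · rw [h]
      exact isCoprime_one_right
    · refine IsCoprime.symm ((h.coprime_iff_not_dvd).2 fun hd => ?_)
      have h1 : p ∣ derivative ρ := hf₁ ▸ hd.trans (dvd_pow_self f₁ two_ne_zero)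
      have h2 : derivative ρ = C (ν ^ 4) * (derivative p * fs) + p * (C (ν ^ 4) * derivative fs) := by
        rw [hρ, hf, derivative_C_mul, derivative_mul]
        ring
      rw [h2] at h1
      have h3 : p ∣ C (ν ^ 4) * (derivative p * fs) := (dvd_add_left (dvd_mul_right _ _)).1 h1
      have h4 : p ∣ derivative p * fs := (hCu.dvd_mul_left).1 h3
      have h5 : p ∣ derivative p := hpf.dvd_of_dvd_mul_right h4
      have h6 : IsCoprime p (derivative p) := PerfectField.separable_of_irreducible h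
      exact h.not_isUnit (h6.isUnit_of_dvd' dvd_rfl h5)
  have hf₁r : IsCoprime f₁ r := by
    have h1 : IsCoprime r (f₁ ^ 2) := by
      rw [← hf₁, hρ, derivative_C_mul]
      exact (isCoprime_mul_unit_left_right hCu r (derivative f)).2 hr2
    exact (h1.of_isCoprime_of_dvd_right (dvd_pow_self f₁ two_ne_zero)).symm
  have hdvd : f₁ ∣ w := hwL f₁ hf₁0 (by omega) hf₁p hf₁r
  obtain ⟨h₀, hh₀⟩ := hdvd
  have hh₀0 : h₀ ≠ 0 := by
    rintro rfl
    exact hw0 (by rw [hh₀, mul_zero])
  have hprod : f₁ * (C ν * h₀) = C ν * w := by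
    rw [hh₀]
    ring
  have hhd : (C ν * h₀).natDegree ≤ w.natDegree := by
    rw [natDegree_C_mul hν0, hh₀, natDegree_mul hf₁0 hh₀0]
    omega
  have hcop' : IsCoprime g (f₁ * (C ν * h₀)) := by
    rw [hprod]
    exact (isCoprime_mul_unit_left_right (isUnit_C.2 (isUnit_iff_ne_zero.2 hν0)) g w).2 hcop
  have hpar : (Irreducible ρ ∧ Odd (k * g.natDegree)) ∨
      ∃ f₂ f₃ : K[X], f₂.Monic ∧ f₃.Monic ∧ Irreducible f₂ ∧ Irreducible f₃ ∧ IsCoprime f₂ f₃ ∧
        ρ = f₂ * f₃ ∧ Even (k * g.natDegree) := by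
    rcases hp with ⟨h, ho⟩ | ⟨h, he, hu⟩
    · left
      refine ⟨?_, ho⟩
      have h1 : Irreducible fs := by
        apply hfi
        intro h2
        have h3 := natDegree_eq_zero_of_isUnit h2
        rw [h, natDegree_one] at hdf
        omega
      rw [hρ, hf, h, one_mul]
      exact (irreducible_isUnit_mul hCu).2 h1
    · right
      have h1 := hfi hu
      have hu2 : IsUnit (C (p.leadingCoeff⁻¹) : K[X]) :=
        isUnit_C.2 (isUnit_iff_ne_zero.2 (inv_ne_zero (leadingCoeff_ne_zero.2 hp0)))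
      have hu3 : IsUnit (C (fs.leadingCoeff⁻¹) : K[X]) :=
        isUnit_C.2 (isUnit_iff_ne_zero.2 (inv_ne_zero (leadingCoeff_ne_zero.2 hfs0)))
      refine ⟨C (p.leadingCoeff⁻¹) * p, C (fs.leadingCoeff⁻¹) * fs, monic_mul hp0, monic_mul hfs0,
        (irreducible_isUnit_mul hu2).2 h, (irreducible_isUnit_mul hu3).2 h1, ?_, ?_, he⟩
      · exact (isCoprime_mul_units_left hu2 hu3 p fs).2 hpf
      · rw [hρ, hν, hf, leadingCoeff_mul, mul_inv, C_mul]
        ring
  have hmain := core4 K k hK ρ f₁ g (C ν * h₀) f.natDegree g.natDegree hρm hg hfpos hρd rfl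
    (by omega) hf₁ hcop' (by omega) hpar
  apply hmain
  have heq : (f₁ * (C ν * h₀)) ^ 4 + ρ * g ^ 4 = C (ν ^ 4) * (w ^ 4 + f * g ^ 4) := by
    rw [hprod, hρ, C_pow]
    ring
  rw [heq]
  exact (irreducible_isUnit_mul hCu).2 hirr

end Pool.Agent.Ff5
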